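import Pool.Agent.Helper70.GUM.St2

/-!
# Project GUM (MP_0bd1d1_al), module XB

The operator `X X - X` of the radial algebra as a sum over the blocks.
-/

set_option autoImplicit false

namespace Pool.Agent.Helper75.GUM

open Pool.Agent.Helper70.GUM Module OG UN
open scoped Classical

universe u v w z

/-- The trace of `ε d` for `d` in the small field. -/
theorem tr_mul {k F : Type*} [Field k] [Field F] [Algebra k F] {σ : F ≃ₐ[k] F} {ε : F} (hε : ε + σ ε = 1) (d : k) :
    ε * algebraMap k F d + σ (ε * algebraMap k F d) = algebraMap k F d := by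
  have h1 : σ (algebraMap k F d) = algebraMap k F d := σ.commutes d
  rw [map_mul, h1]
  linear_combination (algebraMap k F d) * hε

/-- Sum over `F` by the values of the norm. -/
theorem sum_norm {k F K : Type*} [Field k] [Fintype k] [Field F] [Fintype F] [Algebra k F] {σ : F ≃ₐ[k] F}
    [AddCommMonoid K] (hσ : QE σ) (hn : ∀ a : F, ∃ n : k, algebraMap k F n = a * σ a)
    {ε : F} (hε : ε + σ ε = 1) (φ : Hei hσ → K) :
    ∑ a : F, φ (sc hσ ε a) = φ 1 + ∑ d ∈ Finset.univ.filter (fun d : k => d ≠ 0),
      ∑ b ∈ Finset.univ.filter (fun b : F => ε * algebraMap k F d + σ (ε * algebraMap k F d) = b * σ b),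
        φ (pt hσ b (ε * algebraMap k F d)) := by
  choose n hn using hn
  have hinj : Function.Injective (algebraMap k F) := (algebraMap k F).injective
  have key : ∀ d : k, ∑ b ∈ Finset.univ.filter (fun b : F => n b = d), φ (sc hσ ε b) =
      ∑ b ∈ Finset.univ.filter (fun b : F => ε * algebraMap k F d + σ (ε * algebraMap k F d) = b * σ b),
        φ (pt hσ b (ε * algebraMap k F d)) := by
    intro d
    have hset : Finset.univ.filter (fun b : F => n b = d) =
        Finset.univ.filter (fun b : F => ε * algebraMap k F d + σ (ε * algebraMap k F d) = b * σ b) := by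
      ext b
      simp only [Finset.mem_filter, Finset.mem_univ, true_and]
      rw [tr_mul hε, ← hn b]
      constructor
      · intro h
        rw [h]
      · intro h
        exact (hinj h).symm
    rw [← hset]
    refine Finset.sum_congr rfl ?_
    intro b hb
    have hb' : n b = d := (Finset.mem_filter.1 hb).2
    have : sc hσ ε b = pt hσ b (ε * algebraMap k F d) := by
      unfold sc
      rw [← hn b, hb']
    rw [this]
  have h0 : ∑ b ∈ Finset.univ.filter (fun b : F => n b = 0), φ (sc hσ ε b) = φ 1 := by
    have hset : Finset.univ.filter (fun b : F => n b = 0) = {0} := by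
      ext b
      simp only [Finset.mem_filter, Finset.mem_univ, true_and, Finset.mem_singleton]
      constructor
      · intro h
        have h1 := hn b
        rw [h, map_zero] at h1
        rcases mul_eq_zero.1 h1.symm with h2 | h2
        · exact h2
        · exact (map_eq_zero σ).1 h2
      · intro h
        apply hinj
        rw [hn b, h, map_zero, map_zero, zero_mul]
    rw [hset, Finset.sum_singleton]
    have h1 : sc hσ ε 0 = 1 := by
      have ha : (sc hσ ε 0).a = 0 := sc_a hε 0
      have hc : (sc hσ ε 0).c = 0 := by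
        rw [sc_c hε 0]
        ring
      exact Hei.ext ha hc
    rw [h1]
  have hsplit : ∑ a : F, φ (sc hσ ε a) =
      ∑ d : k, ∑ b ∈ Finset.univ.filter (fun b : F => n b = d), φ (sc hσ ε b) := by
    have h := Finset.sum_fiberwise (Finset.univ : Finset F) n (fun a => φ (sc hσ ε a))
    rw [← h]
  rw [hsplit, ← Finset.sum_filter_add_sum_filter_not Finset.univ (fun d : k => d = 0)]
  congr 1
  · have hs : Finset.univ.filter (fun d : k => d = 0) = {0} := by
      ext d
      simp
    rw [hs, Finset.sum_singleton, h0]
  · exact Finset.sum_congr rfl fun d _ => key d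

/-- The difference of two operators `X_ε`. -/
theorem XR_sub {k F R K : Type*} [Field k] [Fintype k] [Field F] [Fintype F] [Algebra k F] {σ : F ≃ₐ[k] F}
    [CommRing R] [Field K] [Algebra R K] {hσ : QE σ} (r : R) {ε ε' : F} (f : Hei hσ → K) (g : Hei hσ) (a b : K)
    (ha : ∑ t : F, f (g * sc hσ ε t) = a) (hb : ∑ t : F, f (g * sc hσ ε' t) = b) :
    (XR r ε f - XR r ε' f) g = -(r • (a - b)) := by
  rw [Pi.sub_apply, XR_apply, XR_apply, ha, hb, smul_sub]
  ring

theorem hXB : StXB.{u, v, w, z} := by
  intro k F R K _ _ _ _ _ σ _ _ _ _ hσ χ r x C S B P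
  have h2 : 2 ≤ Nat.card k := S.two
  have h1q : 1 ≤ Nat.card k := le_trans one_le_two h2
  have he1 : ep x 1 + σ (ep x 1) = 1 := S.tr1 1 le_rfl h1q
  have he2 : ep x 2 + σ (ep x 2) = 1 := S.tr1 2 one_le_two h2
  have hXX : ∀ f ∈ Fun R K hσ χ, XR r (ep x 1) (XR r (ep x 1) f) = XR r (ep x 2) f := by
    intro f hf
    have h := P.pw f hf 2 one_le_two h2
    rw [pow_two] at h
    exact h
  have hsum : ∀ {ε : F}, ε + σ ε = 1 → ∀ (f : Hei hσ → K) (g : Hei hσ),
      ∑ a : F, f (g * sc hσ ε a) = f g + ∑ d ∈ Finset.univ.filter (fun d : k => d ≠ 0),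
        blk f g (ε * algebraMap k F d) := by
    intro ε hε f g
    have h := sum_norm hσ S.nrm hε (fun s => f (g * s))
    rw [h]
    simp only [mul_one]
    rfl
  constructor
  · intro f hf g
    rw [hXX f hf, XR_sub r f g _ _ (hsum he2 f g) (hsum he1 f g), Finset.sum_sub_distrib]
    congr 2
    ring
  · intro u g
    have hf : Lt R u (DD K hσ χ) ∈ Fun R K hσ χ := B.ltF u _ B.DF
    have hsum' : ∀ {ε : F}, ε + σ ε = 1 →
        ∑ a : F, Lt R u (DD K hσ χ) (g * sc hσ ε a) = Lt R u (DD K hσ χ) g +
          ∑ d ∈ Finset.univ.filter (fun d : k => d ≠ 0),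
            ∑ b ∈ Finset.univ.filter (fun b : F => σ ε * algebraMap k F d + σ (σ ε * algebraMap k F d) = b * σ b),
              DD K hσ χ ((u * pt hσ b (σ ε * algebraMap k F d))⁻¹ * g) := by
      intro ε hε
      rw [hsum hε]
      congr 1
      refine Finset.sum_congr rfl ?_
      intro d _
      have hε' : σ ε + σ (σ ε) = 1 := by
        rw [hσ.inv ε]
        linear_combination hε
      unfold blk
      refine Finset.sum_bij (fun b _ => -b) ?_ ?_ ?_ ?_
      · intro b hb
        have hb' := (Finset.mem_filter.1 hb).2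
        refine Finset.mem_filter.2 ⟨Finset.mem_univ _, ?_⟩
        rw [tr_mul hε']
        rw [tr_mul hε] at hb'
        rw [hb', map_neg]
        ring
      · intro a _ b _ h
        exact neg_injective h
      · intro b hb
        have hb' := (Finset.mem_filter.1 hb).2
        refine ⟨-b, Finset.mem_filter.2 ⟨Finset.mem_univ _, ?_⟩, neg_neg b⟩
        rw [tr_mul hε]
        rw [tr_mul hε'] at hb'
        rw [hb', map_neg]
        ring
      · intro b hb
        have hb' := (Finset.mem_filter.1 hb).2
        rw [Lt_apply]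
        have hcd : σ (algebraMap k F d) = algebraMap k F d := σ.commutes d
        have hok : σ ε * algebraMap k F d + σ (σ ε * algebraMap k F d) = (-b) * σ (-b) := by
          rw [tr_mul hε']
          rw [tr_mul hε] at hb'
          rw [hb', map_neg]
          ring
        have hinv : (pt hσ (-b) (σ ε * algebraMap k F d))⁻¹ = pt hσ b (ε * algebraMap k F d) := by
          apply Hei.ext
          · rw [Hei.inv_a, pt_a hok, pt_a hb']
            ring
          · rw [Hei.inv_c, pt_c hok, pt_c hb', map_mul, hσ.inv ε, hcd]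
        have e1 : (u * pt hσ (-b) (σ ε * algebraMap k F d))⁻¹ * g =
            pt hσ b (ε * algebraMap k F d) * (u⁻¹ * g) := by
          rw [mul_inv_rev, hinv, mul_assoc]
        rw [e1, ← mul_assoc u⁻¹ g]
        exact B.Dcom _ _
    rw [hXX _ hf, XR_sub r _ g _ _ (hsum' he2) (hsum' he1), Finset.sum_sub_distrib]
    congr 2
    ring

end Pool.Agent.Helper75.GUM
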